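import Pool.Agent.Helper34.PM.QEv
import Pool.Agent.Helper44.PM.Zero
import Pool.Agent.Helper99.PM.R2

/-!
# A polynomial `Q` which is not divisible by `P` (block E1 of PM, MP_9056e9)
-/

set_option autoImplicit false

namespace Pool.Agent.Helper77.PM

open Polynomial Finset Pool.Agent.PM

private theorem lam_inj : Function.Injective lam := by
  rintro ⟨a, b⟩ ⟨a', b'⟩ h
  have h1 := congrArg Complex.im h
  unfold lam at h1
  cases b <;> cases b' <;> simp at h1 ⊢
  all_goals first
    | (exfalso; have ha : (0 : ℝ) ≤ a := Nat.cast_nonneg a; have ha' : (0 : ℝ) ≤ a' := Nat.cast_nonneg a'; linarith)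
    | (exact_mod_cast h1)

private theorem card_ix (L : ℕ) : (ix L).card = 2 * L := by
  unfold ix
  rw [Finset.card_product, Finset.card_range, Finset.card_univ, Fintype.card_bool, mul_comm]

private theorem gg_coeff (M : ℕ) (v : ℕ → ℕ → ℤ[X]) (z : ℂ) (b a : ℕ) (ha : a < M) :
    (gg M v z b).coeff a = aeval z (v a b) := by
  unfold gg
  rw [Polynomial.finsetSum_coeff]
  simp only [Polynomial.coeff_C_mul_X_pow]
  rw [Finset.sum_ite_eq]
  simp [ha]

private theorem gg_natDegree {M : ℕ} (hM : 0 < M) (v : ℕ → ℕ → ℤ[X]) (z : ℂ) (b : ℕ) :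
    (gg M v z b).natDegree < M := by
  have h1 : (gg M v z b).natDegree ≤ M - 1 := by
    unfold gg
    refine Polynomial.natDegree_sum_le_of_forall_le _ _ fun a ha => ?_
    rw [Finset.mem_range] at ha
    exact (Polynomial.natDegree_C_mul_X_pow_le _ _).trans (by omega)
  omega

theorem exists_nondiv {P : ℤ[X]} (hP : Irreducible P) (hd : 0 < P.natDegree) (hX : ¬ P ∣ X) {N : ℕ}
    (hN : 1 ≤ N) (w : ℕ → ℕ → ℤ[X]) (hw : ∃ a < 4000 * N, ∃ b < N, ¬ P ∣ w a b) :
    ∃ s < 10 * N, ∃ t < 1000 * N, ¬ P ∣ Q (4000 * N) N w t s := by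
  by_contra hcon
  push Not at hcon
  -- a root of `P`
  obtain ⟨α, hα⟩ : ∃ α : ℂ, aeval α P = 0 := by
    have h1 : (P.map (algebraMap ℤ ℂ)).degree ≠ 0 := by
      rw [Polynomial.degree_map_eq_of_injective (algebraMap ℤ ℂ).injective_int]
      exact (Polynomial.natDegree_pos_iff_degree_pos.1 hd).ne'
    obtain ⟨α, hα⟩ := IsAlgClosed.exists_root (P.map (algebraMap ℤ ℂ)) h1
    refine ⟨α, ?_⟩
    rwa [Polynomial.IsRoot.def, Polynomial.eval_map_algebraMap] at hα
  have hα0 : α ≠ 0 := by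
    intro h
    apply hX
    refine Pool.Agent.Helper99.PM.dvd_of_root hP hd hα ?_
    rw [Polynomial.aeval_X, h]
  have hzero := Pool.Agent.Helper44.PM.zero_est (ix N) lam lam_inj.injOn (fun i => gg (4000 * N) w α i.1) (4000 * N)
    (fun i _ => gg_natDegree (by omega) w α i.1) (10 * N) (1000 * N) (fun s => (s : ℂ) * α)
    (by
      intro a _ b _ hab
      have h2 := mul_right_cancel₀ hα0 hab
      exact_mod_cast h2)
    (by
      intro s hs t ht
      rw [← Pool.Agent.Helper34.PM.Q_eval]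
      obtain ⟨R, hR⟩ := hcon s hs t ht
      rw [hR, map_mul, hα, zero_mul])
    (by
      rw [card_ix]
      have h3 : 1000 * N + 1 - 2 * N = 998 * N + 1 := by omega
      rw [h3]
      nlinarith)
  obtain ⟨a, ha, b, hb, hab⟩ := hw
  apply hab
  refine Pool.Agent.Helper99.PM.dvd_of_root hP hd hα ?_
  have h4 := hzero (b, true) (by
    unfold ix
    rw [Finset.mem_product]
    exact ⟨Finset.mem_range.2 hb, Finset.mem_univ _⟩)
  have h5 := gg_coeff (4000 * N) w α b a ha
  rw [h4, Polynomial.coeff_zero] at h5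
  exact h5.symm

end Pool.Agent.Helper77.PM
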